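import Pool.Agent.Helper61_ANP.Scl

/-!
# QDA, row SCB: clocks with a prescribed last stage

`exists_kqK`: for `w` small and every `K` with `w θ ^ K ≤ w ^ P` there are clocks with the ratio of the
scales between `a` and `a + 1` and `kk (N + 1) = K`. `P` depends on `a` only.
-/

set_option autoImplicit false

open Finset Filter

noncomputable section

namespace Pool.Agent.QDA.H22

open Pool.Agent.ANP.H61

/-- the exponents `e` for given stages `kk` -/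
theorem kq_of (w θ : ℝ) (v a : ℕ) (ha : 2 ≤ a) (hv : 1 ≤ v) (hθ : 0 < θ) (hθ1 : θ < 1)
    (hw : 0 < w) (hw1' : w < 1) (hw1 : w * 2 ^ v ≤ 1) (kk : ℕ → ℕ) (hkk0 : kk 0 = 0)
    (hkks : ∀ n, kk n < kk (n + 1)) (hup : ∀ n, w * θ ^ kk (n + 1) ≤ (w * θ ^ kk n) ^ a)
    (hdn : ∀ n, (w * θ ^ kk n) ^ (a + 1) ≤ w * θ ^ kk (n + 1)) :
    ∃ e : ℕ → ℕ, Kq w θ v a kk e := by
  have hs0 : ∀ k, 0 < w * θ ^ k := fun k => by positivity
  have hs1 : ∀ k, w * θ ^ k ≤ w := fun k => by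
    have := pow_le_one₀ (n := k) hθ.le hθ1.le
    nlinarith
  have hexe : ∀ n, ∃ e : ℕ, (1 / 2 : ℝ) ^ (e + 1) < w * θ ^ kk n ∧ w * θ ^ kk n ≤ (1 / 2) ^ e :=
    fun n => exists_nat_pow_near_of_lt_one (hs0 _) ((hs1 _).trans hw1'.le) (by norm_num) (by norm_num)
  choose e he1 he2 using hexe
  have hhi : ∀ n, w * θ ^ kk n * 2 ^ e n ≤ 1 := by
    intro n
    have h1 := mul_le_mul_of_nonneg_right (he2 n) (show (0 : ℝ) ≤ 2 ^ e n by positivity)
    rw [← mul_pow] at h1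
    norm_num at h1 ⊢
    exact h1
  have hlo' : ∀ n, 1 < w * θ ^ kk n * 2 ^ (e n + 1) := by
    intro n
    have h1 := mul_lt_mul_of_pos_right (he1 n) (show (0 : ℝ) < 2 ^ (e n + 1) by positivity)
    rw [← mul_pow] at h1
    norm_num at h1 ⊢
    exact h1
  refine ⟨e, ⟨hkk0, hkks, hup, hdn, ⟨ha, hv, fun n => hs0 _, hhi,
    fun n => (hlo' n).le, ?_, fun n => ?_, fun n => ?_, ?_⟩⟩⟩
  · -- v ≤ e 0
    by_contra hcon
    push Not at hcon
    have h1 := hlo' 0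
    rw [hkk0, pow_zero, mul_one] at h1
    have h2 : (2 : ℝ) ^ (e 0 + 1) ≤ 2 ^ v := pow_le_pow_right₀ (by norm_num) (by omega)
    have h3 := mul_le_mul_of_nonneg_left h2 hw.le
    linarith
  · -- a e n ≤ e (n+1)
    by_contra hcon
    push Not at hcon
    have h1 := hlo' (n + 1)
    have h2 : w * θ ^ kk (n + 1) ≤ (w * θ ^ kk n) ^ a := hup n
    have h3 : (2 : ℝ) ^ (e (n + 1) + 1) ≤ 2 ^ (a * e n) := pow_le_pow_right₀ (by norm_num) (by omega)
    have h4 : (w * θ ^ kk n * 2 ^ e n) ^ a ≤ 1 := pow_le_one₀ (by have := hs0 (kk n); positivity) (hhi n)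
    have h5 : (w * θ ^ kk n) ^ a * 2 ^ (a * e n) ≤ 1 := by
      rw [mul_pow, ← pow_mul, mul_comm (e n) a] at h4
      exact h4
    have h6 : w * θ ^ kk (n + 1) * 2 ^ (e (n + 1) + 1) ≤ (w * θ ^ kk n) ^ a * 2 ^ (a * e n) :=
      mul_le_mul h2 h3 (by positivity) (by have := hs0 (kk n); positivity)
    linarith
  · -- e (n+1) ≤ (a+1)(e n + 1)
    by_contra hcon
    push Not at hcon
    have h1 := hhi (n + 1)
    have h2 : (w * θ ^ kk n) ^ (a + 1) ≤ w * θ ^ kk (n + 1) := hdn n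
    have h3 : (2 : ℝ) ^ ((a + 1) * (e n + 1)) ≤ 2 ^ (e (n + 1)) :=
      pow_le_pow_right₀ (by norm_num) (by omega)
    have h4 : 1 < (w * θ ^ kk n * 2 ^ (e n + 1)) ^ (a + 1) :=
      one_lt_pow₀ (hlo' n) (by omega)
    have h5 : 1 < (w * θ ^ kk n) ^ (a + 1) * 2 ^ ((a + 1) * (e n + 1)) := by
      rw [mul_pow, ← pow_mul, mul_comm (e n + 1) (a + 1)] at h4
      exact h4
    have h6 : (w * θ ^ kk n) ^ (a + 1) * 2 ^ ((a + 1) * (e n + 1)) ≤
        w * θ ^ kk (n + 1) * 2 ^ (e (n + 1)) :=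
      mul_le_mul h2 h3 (by positivity) (hs0 _).le
    linarith
  · -- antitone
    refine antitone_nat_of_succ_le fun n => ?_
    show w * θ ^ kk (n + 1) ≤ w * θ ^ kk n
    refine mul_le_mul_of_nonneg_left ?_ hw.le
    exact pow_le_pow_of_le_one hθ.le hθ1.le (hkks n).le

/-- the exponent `m₀`: from it on the intervals `[(a + 1/4)^m, (a + 3/4)^m]` overlap -/
theorem exists_m0 (a : ℕ) : ∃ m₀ : ℕ, 3 ≤ m₀ ∧
    ∀ m : ℕ, m₀ ≤ m → ((a : ℝ) + 1 / 4) ^ (m + 1) ≤ ((a : ℝ) + 3 / 4) ^ m := by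
  have ha : (0 : ℝ) < (a : ℝ) + 1 / 4 := by positivity
  have hr : 1 < ((a : ℝ) + 3 / 4) / (a + 1 / 4) := by
    rw [one_lt_div ha]
    linarith
  obtain ⟨m₁, hm₁⟩ := pow_unbounded_of_one_lt ((a : ℝ) + 1 / 4) hr
  refine ⟨m₁ + 3, by omega, fun m hm => ?_⟩
  have h1 : (a : ℝ) + 1 / 4 ≤ (((a : ℝ) + 3 / 4) / (a + 1 / 4)) ^ m :=
    hm₁.le.trans (pow_le_pow_right₀ hr.le (by omega))
  rw [div_pow, le_div_iff₀ (by positivity)] at h1
  rw [pow_succ, mul_comm]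
  exact h1

/-- the ratio: a power of a number between `a + 1/4` and `a + 3/4` -/
theorem exists_ratio (a m₀ : ℕ) (ha : 2 ≤ a)
    (hm : ∀ m : ℕ, m₀ ≤ m → ((a : ℝ) + 1 / 4) ^ (m + 1) ≤ ((a : ℝ) + 3 / 4) ^ m) (x : ℝ)
    (hx : ((a : ℝ) + 1 / 4) ^ m₀ ≤ x) :
    ∃ (m : ℕ) (b : ℝ), m₀ ≤ m ∧ (a : ℝ) + 1 / 4 ≤ b ∧ b ≤ a + 3 / 4 ∧ b ^ m = x := by
  have ha0 : (0 : ℝ) ≤ (a : ℝ) := Nat.cast_nonneg _
  have ha1 : (1 : ℝ) < (a : ℝ) + 1 / 4 := by
    have : (2 : ℝ) ≤ a := by exact_mod_cast ha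
    linarith
  have hx1 : 1 ≤ x := (one_le_pow₀ ha1.le).trans hx
  obtain ⟨m, h1, h2⟩ := exists_nat_pow_near hx1 ha1
  have hmm : m₀ ≤ m := by
    by_contra hcon
    push Not at hcon
    have h3 : ((a : ℝ) + 1 / 4) ^ (m + 1) ≤ ((a : ℝ) + 1 / 4) ^ m₀ :=
      pow_le_pow_right₀ ha1.le hcon
    linarith
  have h3 : x ≤ ((a : ℝ) + 3 / 4) ^ m := h2.le.trans (hm m hmm)
  rcases Nat.eq_zero_or_pos m with h0 | h0
  · subst h0
    refine ⟨0, (a : ℝ) + 1 / 4, hmm, le_rfl, by linarith, ?_⟩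
    rw [pow_zero] at h1 h3 ⊢
    linarith
  have hm0 : m ≠ 0 := by omega
  have hmr : (0 : ℝ) < m := by exact_mod_cast h0
  have hx0 : 0 ≤ x := by linarith
  refine ⟨m, x ^ (1 / (m : ℝ)), hmm, ?_, ?_, ?_⟩
  · have h4 := Real.rpow_le_rpow (by positivity) h1 (show 0 ≤ 1 / (m : ℝ) by positivity)
    rwa [← Real.rpow_natCast, ← Real.rpow_mul (by positivity), mul_one_div_cancel hmr.ne',
      Real.rpow_one] at h4
  · have h4 := Real.rpow_le_rpow hx0 h3 (show 0 ≤ 1 / (m : ℝ) by positivity)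
    rwa [← Real.rpow_natCast ((a : ℝ) + 3 / 4), ← Real.rpow_mul (by positivity),
      mul_one_div_cancel hmr.ne', Real.rpow_one] at h4
  · rw [← Real.rpow_natCast, ← Real.rpow_mul hx0, one_div_mul_cancel hmr.ne', Real.rpow_one]

/-- the exponent `P` -/
theorem exists_kqK (a : ℕ) (ha : 2 ≤ a) : ∃ P : ℕ, 1 ≤ P ∧
    ∀ (w θ : ℝ) (v K : ℕ), 1 ≤ v → 1 / 2 ≤ θ → θ < 1 → 0 < w → w ≤ (1 / 2) ^ (4 * (a + 1)) →
      w * 2 ^ v ≤ 1 → w * θ ^ K ≤ w ^ P →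
      ∃ (N : ℕ) (kk e : ℕ → ℕ), 2 ≤ N ∧ kk (N + 1) = K ∧ Kq w θ v a kk e := by
  obtain ⟨m₀, hm3, hm⟩ := exists_m0 a
  refine ⟨(a + 1) ^ m₀, Nat.one_le_pow _ _ (by omega), ?_⟩
  intro w θ v K hv hθ2 hθ1 hw hwa hw1 hK
  have hθ : 0 < θ := by linarith
  have har : (2 : ℝ) ≤ a := by exact_mod_cast ha
  -- logarithms
  obtain ⟨lam, hlam⟩ : ∃ lam, lam = -Real.log θ := ⟨_, rfl⟩
  obtain ⟨L0, hL0⟩ : ∃ L0, L0 = -Real.log w := ⟨_, rfl⟩
  have hlam0 : 0 < lam := by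
    rw [hlam]
    have := Real.log_neg hθ hθ1
    linarith
  have hlog2 : 0 < Real.log 2 := Real.log_pos (by norm_num)
  have hlam1 : lam ≤ Real.log 2 := by
    rw [hlam]
    have h1 : Real.log (1 / 2) ≤ Real.log θ := Real.log_le_log (by norm_num) hθ2
    have h2 : Real.log (1 / 2) = -Real.log 2 := by rw [one_div, Real.log_inv]
    linarith
  have hL1 : 4 * ((a : ℝ) + 1) * Real.log 2 ≤ L0 := by
    rw [hL0]
    have h1 : Real.log w ≤ Real.log ((1 / 2) ^ (4 * (a + 1))) := Real.log_le_log hw hwa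
    rw [Real.log_pow, one_div, Real.log_inv] at h1
    push_cast at h1
    linarith
  have hL00 : 0 < L0 := lt_of_lt_of_le (by positivity) hL1
  have hlog : ∀ k : ℕ, Real.log (w * θ ^ k) = -(L0 + k * lam) := by
    intro k
    rw [Real.log_mul hw.ne' (by positivity), Real.log_pow, hL0, hlam]
    ring
  have hpos : ∀ k : ℕ, 0 < w * θ ^ k := fun k => by positivity
  -- the total
  obtain ⟨x, hx⟩ : ∃ x, x = (L0 + K * lam) / L0 := ⟨_, rfl⟩
  have hxP : (((a + 1) ^ m₀ : ℕ) : ℝ) ≤ x := by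
    have h1 : Real.log (w * θ ^ K) ≤ Real.log (w ^ ((a + 1) ^ m₀)) := Real.log_le_log (hpos K) hK
    rw [hlog, Real.log_pow] at h1
    rw [hx, le_div_iff₀ hL00, hL0] at *
    linarith
  have hx1 : ((a : ℝ) + 1 / 4) ^ m₀ ≤ x := by
    refine le_trans ?_ hxP
    push_cast
    gcongr
    norm_num
  obtain ⟨m, b, hmm, hb1, hb2, hbm⟩ := exists_ratio a m₀ ha hm x hx1
  -- the stages
  have hb0 : 0 < b := by linarith
  have hb1' : 1 ≤ b := by linarith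
  obtain ⟨g, hg⟩ : ∃ g : ℕ → ℝ, g = fun n => L0 * (b ^ n - 1) / lam := ⟨_, rfl⟩
  have hg0 : ∀ n, 0 ≤ g n := by
    intro n
    rw [hg]
    have : (1 : ℝ) ≤ b ^ n := one_le_pow₀ hb1'
    have : 0 ≤ b ^ n - 1 := by linarith
    positivity
  obtain ⟨kk, hkk⟩ : ∃ kk : ℕ → ℕ, kk = fun n => ⌊g n⌋₊ := ⟨_, rfl⟩
  have h1 : ∀ n, L0 + kk n * lam ≤ L0 * b ^ n := by
    intro n
    have h2 : (kk n : ℝ) ≤ g n := by rw [hkk]; exact Nat.floor_le (hg0 n)
    have h3 : (kk n : ℝ) * lam ≤ g n * lam := mul_le_mul_of_nonneg_right h2 hlam0.le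
    have h4 : g n * lam = L0 * (b ^ n - 1) := by
      rw [hg]
      field_simp
    rw [h4] at h3
    linarith
  have h2 : ∀ n, L0 * b ^ n < L0 + kk n * lam + lam := by
    intro n
    have h3 : g n < (kk n : ℝ) + 1 := by rw [hkk]; exact Nat.lt_floor_add_one _
    have h4 : g n * lam < ((kk n : ℝ) + 1) * lam := mul_lt_mul_of_pos_right h3 hlam0
    have h5 : g n * lam = L0 * (b ^ n - 1) := by
      rw [hg]
      field_simp
    rw [h5] at h4
    linarith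
  have hLn : ∀ n, L0 ≤ L0 + kk n * lam := fun n => by
    have : 0 ≤ (kk n : ℝ) * lam := by positivity
    linarith
  have hup : ∀ n, (a : ℝ) * (L0 + kk n * lam) ≤ L0 + kk (n + 1) * lam := by
    intro n
    have e1 := h1 n
    have e2 := h2 (n + 1)
    have e3 := hLn n
    rw [pow_succ] at e2
    have e4 : ((a : ℝ) + 1 / 4) * (L0 + kk n * lam) ≤ b * (L0 * b ^ n) := by
      have : 0 ≤ L0 * b ^ n := by positivity
      calc ((a : ℝ) + 1 / 4) * (L0 + kk n * lam) ≤ ((a : ℝ) + 1 / 4) * (L0 * b ^ n) := by gcongr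
        _ ≤ b * (L0 * b ^ n) := by gcongr
    have e5 : L0 * (b ^ n * b) = b * (L0 * b ^ n) := by ring
    rw [e5] at e2
    have e6 : 4 * lam ≤ L0 := by nlinarith
    nlinarith
  have hdn : ∀ n, L0 + kk (n + 1) * lam ≤ ((a : ℝ) + 1) * (L0 + kk n * lam) := by
    intro n
    have e1 := h1 (n + 1)
    have e2 := h2 n
    have e3 := hLn n
    rw [pow_succ] at e1
    have e4 : b * (L0 * b ^ n) ≤ ((a : ℝ) + 3 / 4) * (L0 + kk n * lam + lam) := by
      have : 0 ≤ L0 * b ^ n := by positivity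
      calc b * (L0 * b ^ n) ≤ ((a : ℝ) + 3 / 4) * (L0 * b ^ n) := by gcongr
        _ ≤ _ := by gcongr
    have e5 : L0 * (b ^ n * b) = b * (L0 * b ^ n) := by ring
    rw [e5] at e1
    have e6 : 4 * ((a : ℝ) + 1) * lam ≤ L0 := by
      refine le_trans ?_ hL1
      gcongr
    nlinarith
  have hupE : ∀ n, w * θ ^ kk (n + 1) ≤ (w * θ ^ kk n) ^ a := by
    intro n
    rw [← Real.log_le_log_iff (hpos _) (pow_pos (hpos _) _), Real.log_pow, hlog, hlog]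
    have := hup n
    linarith
  have hdnE : ∀ n, (w * θ ^ kk n) ^ (a + 1) ≤ w * θ ^ kk (n + 1) := by
    intro n
    rw [← Real.log_le_log_iff (pow_pos (hpos _) _) (hpos _), Real.log_pow, hlog, hlog]
    have := hdn n
    push_cast
    linarith
  have hkks : ∀ n, kk n < kk (n + 1) := by
    intro n
    have e1 := hup n
    have e2 := hLn n
    have e3 : (kk n : ℝ) * lam < kk (n + 1) * lam := by nlinarith
    have e4 : (kk n : ℝ) < kk (n + 1) := lt_of_mul_lt_mul_right e3 hlam0.le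
    exact_mod_cast e4
  have hkk0 : kk 0 = 0 := by
    rw [hkk, hg]
    simp
  have hkkm : kk m = K := by
    have e1 : g m = K := by
      rw [hg]
      show L0 * (b ^ m - 1) / lam = K
      rw [hbm, hx]
      field_simp
      ring
    rw [hkk]
    show ⌊g m⌋₊ = K
    rw [e1, Nat.floor_natCast]
  have hw1' : w < 1 := by
    refine lt_of_le_of_lt hwa (pow_lt_one₀ (by norm_num) (by norm_num) (by omega))
  obtain ⟨e, he⟩ := kq_of w θ v a ha hv hθ hθ1 hw hw1' hw1 kk hkk0 hkks hupE hdnE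
  refine ⟨m - 1, kk, e, by omega, ?_, he⟩
  rw [show m - 1 + 1 = m by omega]
  exact hkkm

end Pool.Agent.QDA.H22
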