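import Pool.Agent.Helper22_ACX.Scl2
import Pool.Agent.Helper22_QDA.Kq

/-!
# QDA, row SCB: THE SCALES WITH A PRESCRIBED LAST STAGE
-/

set_option autoImplicit false

open Finset Filter

open scoped NNReal

noncomputable section

namespace Pool.Agent.QDA.H22

open Pool.Agent.ANP Pool.Agent.ANP.H61 Pool.Agent.AND2B Pool.Agent.ACX.H22

/-- THE SCALES for given clocks: everything is uniform in `th ∈ [1/2, b]` -/
theorem core (d : ℕ) (b : ℝ≥0) (c₁ : ℝ) (hb1 : b < 1) (hc₁ : 0 < c₁) :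
    ∃ (C₁ : ℝ) (α J : ℕ), 4 * d + 4 ≤ α ∧ ∀ β : ℝ, 0 < β → ∀ A : ℝ, ∃ v : ℕ, 1 ≤ v ∧
      ∀ (th w : ℝ≥0) (N : ℕ) (kk e : ℕ → ℕ) (t : ℝ), 1 / 2 ≤ th → th ≤ b → 0 < w →
        (w : ℝ) ≤ 1 → Kq (w : ℝ) th v α kk e → (w : ℝ) * (th : ℝ) ^ kk (N + 1) ≤ t →
      ∃ (μ : ℕ) (l r Kn Dn : ℕ → ℕ), Scal d th c₁ C₁ α J β w t N μ kk l r Kn Dn ∧
        ∀ n ≤ N, ∀ B, ANP.H72.QQ (Gt d μ J N l r).ch J
          (fun i => 2 * pf w th kk β N i.1 *
            ((kk (i.1 + 1) : ℝ) - kk i.1 + ((2 ^ l i.1 : ℕ) : ℝ) ^ d)) n B ≤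
          sg w th kk (n + 1) ^ A := by
  obtain ⟨c1, hc1def⟩ : ∃ c1, c1 = min c₁ 1 := ⟨_, rfl⟩
  have hc1 : 0 < c1 := by rw [hc1def]; exact lt_min hc₁ one_pos
  have hc1le : c1 ≤ c₁ := by rw [hc1def]; exact min_le_left _ _
  have hc1le1 : c1 ≤ 1 := by rw [hc1def]; exact min_le_right _ _
  -- the ratio
  obtain ⟨a0, ha0⟩ := exists_nat_ge (((d * 5 + 1 : ℕ) : ℝ) / c1)
  obtain ⟨a, hadef⟩ : ∃ a, a = max (4 * d + 4) a0 := ⟨_, rfl⟩
  have had4 : 4 * d + 4 ≤ a := by rw [hadef]; exact le_max_left _ _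
  have had : d + 2 ≤ a := by omega
  have ha2 : 2 ≤ a := by omega
  have haa : ((d * 5 + 1 : ℕ) : ℝ) ≤ c1 * a := by
    have h1 : (a0 : ℝ) ≤ a := by rw [hadef]; exact_mod_cast le_max_right _ _
    rw [div_le_iff₀ hc1] at ha0
    nlinarith
  obtain ⟨J, hJ⟩ : ∃ J, J = 2 * a + 4 := ⟨_, rfl⟩
  refine ⟨6, a, J, by omega, fun β hβ A => ?_⟩
  obtain ⟨A0, hA0⟩ := exists_nat_ge A
  obtain ⟨A', hA'⟩ : ∃ A', A' = max (AA d a) A0 := ⟨_, rfl⟩
  have hAA : AA d a ≤ A' := by rw [hA']; exact le_max_left _ _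
  have hA5 : A ≤ ((A' * 5 : ℕ) : ℝ) := by
    have h1 : (A0 : ℝ) ≤ (A' : ℝ) := by rw [hA']; exact_mod_cast le_max_right _ _
    have h2 : (0 : ℝ) ≤ (A' : ℝ) := Nat.cast_nonneg _
    push_cast
    linarith
  -- the number of stages
  obtain ⟨h, hhb⟩ := exists_pow_lt_of_lt_one (show (0 : ℝ) < 1 / 2 by norm_num)
    (show (b : ℝ) < 1 by exact_mod_cast hb1)
  -- growth
  obtain ⟨E1, hE1⟩ := growth (5 / 4 - 6 / 5) (by norm_num) (((3 ^ d * J : ℕ) : ℝ) + 1)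
  obtain ⟨E2, hE2⟩ := growth (13 / 10 - 5 / 4) (by norm_num) (2 * 3 ^ d : ℝ)
  obtain ⟨E3, hE3⟩ := growth β hβ (Real.log (max 2 1) +
      (2 + h + (d + 1 + A') * (5 * (a + 2)) : ℕ))
  obtain ⟨m0, hm0⟩ : ∃ m0, m0 = 104 * (3 ^ d * J) := ⟨_, rfl⟩
  obtain ⟨v, hv⟩ : ∃ v, v = 5 + (2 * d + 2) + m0 + (3 ^ d * J) ^ 2 * 2 ^ (3 * d + d * 5) +
    E1 + E2 + E3 := ⟨_, rfl⟩
  refine ⟨v, by omega, fun th w N kk e t hth hthb hw hw1' HK ht => ?_⟩
  have hθ : (0 : ℝ) < th := by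
    have h1 : (0 : ℝ≥0) < th := lt_of_lt_of_le (by norm_num) hth
    exact_mod_cast h1
  have hθ1 : (th : ℝ) < 1 := by exact_mod_cast lt_of_le_of_lt hthb hb1
  have hh : (th : ℝ) ^ h < 1 / 2 := by
    refine lt_of_le_of_lt ?_ hhb
    exact pow_le_pow_left₀ hθ.le (by exact_mod_cast hthb) _
  have hwr : (0 : ℝ) < w := by exact_mod_cast hw
  have H := HK.sq
  obtain ⟨s, hs⟩ : ∃ s : ℕ → ℝ, s = fun n => (w : ℝ) * (th : ℝ) ^ kk n := ⟨_, rfl⟩
  rw [← hs] at H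
  have hsg : ∀ n, sg w th kk n = s n := by
    intro n
    rw [hs]
    unfold sg cl
    push_cast
    rfl
  have hs1 : ∀ n, s n ≤ 1 := H.le_one
  have hC : 5 ≤ 5 := le_rfl
  have h3a : 5 + 1 ≤ 3 * a := by omega
  have hv5 : 5 ≤ v := by omega
  have hvm : m0 ≤ v := by omega
  have hvc : (3 ^ d * J) ^ 2 * 2 ^ (3 * d + d * 5) ≤ v := by omega
  have hvd : 2 * d + 2 ≤ v := by omega
  have hlin := H.lin
  have hmono : Monotone (lt 5 a m0 e N) := lmono H N hC h3a hv5 hvm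
  have hDl : ∀ n ≤ N, ((DN d J 5 a m0 (6 / 5) s e N n : ℕ) : ℝ) ≤ s (n + 1) ^ (-(5 / 4 : ℝ)) :=
    fun n hn => dn_le H d J N c1 (6 / 5) (5 / 4) hc1.le (by linarith) (by norm_num) haa hvc E1 hE1
      (by omega) n hn
  have hDs := dsum H (m0 := m0) d J N (6 / 5) (5 / 4) (by norm_num) hC (by norm_num) (by omega) hvd
    hvc hDl
  have hDc := dcon H (m0 := m0) (C0 := 5) d J N (6 / 5) (5 / 4) (13 / 10) (by norm_num) (by norm_num)
    E2 hE2 (by omega) hDl N le_rfl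
  have hDm := dcon_last H (m0 := m0) (C0 := 5) d J N (6 / 5) (13 / 10) hC had (by norm_num)
    (by norm_num) hvd hvc hDc
  have hkk : ∀ n, kk (n + 1) ≤ kk n + h * (e (n + 1) + 2) := fun n =>
    kq_count (w : ℝ) th v a h kk e hθ hθ1 hh.le hwr hw1' HK n
  have hpf0 : ∀ n, 0 ≤ pf w th kk β N n := fun n => by
    unfold pf
    split_ifs <;> positivity
  have hnum0 : ∀ n, 0 ≤ ((kk (n + 1) : ℝ) - kk n + ((2 ^ lt 5 a m0 e N n : ℕ) : ℝ) ^ d) := by
    intro n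
    have h1 : (kk n : ℝ) ≤ kk (n + 1) := by exact_mod_cast (HK.kks n).le
    have h2 : (0 : ℝ) ≤ ((2 ^ lt 5 a m0 e N n : ℕ) : ℝ) ^ d := by positivity
    linarith
  have hq0 : ∀ n, 0 ≤ qA A' 5 a m0 e N n := fun n => by
    unfold qA
    positivity
  have hq1 : ∀ n, qA A' 5 a m0 e N n ≤ 1 := fun n => by
    unfold qA
    exact pow_le_one₀ (by norm_num) (by norm_num)
  have hqq : ∀ n, qA A' 5 a m0 e N n ≤ qn d 5 a m0 e N n := fun n => by
    unfold qA qn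
    exact pow_le_pow_of_le_one (by norm_num) (by norm_num) (Nat.mul_le_mul_right _ hAA)
  have hpi2 : ∀ n, 2 * pf w th kk β N n *
      ((kk (n + 1) : ℝ) - kk n + ((2 ^ lt 5 a m0 e N n : ℕ) : ℝ) ^ d) ≤ qA A' 5 a m0 e N n / 2 := by
    intro n
    rcases Nat.lt_or_ge N n with hn | hn
    · unfold pf
      rw [if_neg (by omega), mul_zero, zero_mul]
      have := hq0 n
      linarith
    · refine pi_leA H (m0 := m0) d N hC A' β 2 h hβ.le kk hkk E3 hE3 (by omega) _ n hn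
        (mul_nonneg (by norm_num) (hpf0 n)) ?_
      unfold pf
      rw [if_pos hn, hsg]
  have hpi : ∀ n, pf w th kk β N n *
      ((kk (n + 1) : ℝ) - kk n + ((2 ^ lt 5 a m0 e N n : ℕ) : ℝ) ^ d) ≤ qn d 5 a m0 e N n / 2 := by
    intro n
    have h1 := hpi2 n
    have h2 := hqq n
    have h3 := mul_nonneg (hpf0 n) (hnum0 n)
    have h4 := hq0 n
    linarith
  have hphi := phi_le H (m0 := m0) d N hC h3a hv5 hvm J hJ 0
  refine ⟨mt 5 a e N, lt 5 a m0 e N, rt 5 a m0 e N, KN (6 / 5) s N,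
    DN d J 5 a m0 (6 / 5) s e N, ?_, fun n hn B => ?_⟩
  · have hmtN : (2 : ℝ) ^ mt 5 a e N = (2 : ℝ) ^ ((a : ℝ) * (5 * ((e (N + 1) : ℝ) + 1))) := by
      rw [← Real.rpow_natCast]
      unfold ANP.H61.mt
      push_cast
      rfl
    refine
      { k0 := HK.kk0
        km := HK.kks
        low := fun n _ => ?_
        up := fun n _ => ?_
        fin := ?_
        lm := hmono
        rlow := fun n hn => ?_
        rup := fun n hn => ?_
        llow := fun n hn => ?_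
        lup := fun n hn => ?_
        lN := ?_
        rN := ?_
        mN := ?_
        mU := ?_
        clu := fun n hn1 hn => ?_
        scl := ?_
        kn := fun n hn => ?_
        d0 := ?_
        dl := fun n hn => ?_
        dn := fun n hn => ?_
        ds := ?_
        dM := ?_
        pi := fun n _ => ?_
        phi := ?_ }
    · rw [hsg, hsg, hs]
      exact HK.dn n
    · rw [hsg, hsg]
      have h1 : s (n + 1) ≤ s n ^ a := by
        rw [hs]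
        exact HK.up n
      exact h1.trans (pow_le_pow_of_le_one (H.pos n).le (hs1 n) (by omega))
    · rw [hsg, hs]
      exact ht
    · rw [hsg, rt_of_le hn]
      refine (rp_hi (s (n + 1)) 3 (e (n + 1)) (H.pos _) (H.lo _) (by norm_num)).trans (le_of_eq ?_)
      rw [← Real.rpow_natCast]
      push_cast
      rfl
    · rw [hsg, rt_of_le hn]
      refine le_trans ?_ (rp_lo (s (n + 1)) 4 (e (n + 1)) (H.pos _) (H.hi _) (by norm_num))
      rw [← Real.rpow_natCast]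
      refine Real.rpow_le_rpow_of_exponent_le (by norm_num) ?_
      have h1 : (3 * (e (n + 1) + 1) : ℕ) ≤ 4 * e (n + 1) := by
        have := hlin (n + 1)
        omega
      exact_mod_cast h1
    · rw [hsg, lt_of_le hn]
      refine (rp_hi (s (n + 1)) 5 (e (n + 1)) (H.pos _) (H.lo _) (by norm_num)).trans (le_of_eq ?_)
      rw [← Real.rpow_natCast]
      push_cast
      rfl
    · rw [hsg, lt_of_le hn]
      refine le_trans ?_ (rp_lo (s (n + 1)) 6 (e (n + 1)) (H.pos _) (H.hi _) (by norm_num))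
      rw [← Real.rpow_natCast]
      refine Real.rpow_le_rpow_of_exponent_le (by norm_num) ?_
      have h1 : (5 * (e (n + 1) + 1) : ℕ) ≤ 6 * e (n + 1) := by
        have := hlin (n + 1)
        omega
      exact_mod_cast h1
    · have h1 : lt 5 a m0 e N N + 6 ≤ mt 5 a e N := by
        rw [lt_of_le le_rfl]
        unfold ANP.H61.mt
        have h2 : 2 * (5 * (e (N + 1) + 1)) ≤ a * (5 * (e (N + 1) + 1)) :=
          Nat.mul_le_mul_right _ ha2
        have h3 := hlin (N + 1)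
        omega
      omega
    · rw [rt_of_gt (Nat.lt_succ_self N)]
      omega
    · rw [hsg]
      refine (rp_hi (s (N + 1)) 5 (e (N + 1)) (H.pos _) (H.lo _) (by norm_num)).trans ?_
      rw [hmtN]
      refine Real.rpow_le_rpow_of_exponent_le (by norm_num) ?_
      have h1 : (1 : ℝ) ≤ a := by exact_mod_cast (by omega : 1 ≤ a)
      have h2 : (0 : ℝ) ≤ 5 * ((e (N + 1) : ℝ) + 1) := by positivity
      nlinarith
    · rw [hsg]
      refine le_trans ?_ (rp_lo (s (N + 1)) (6 * ((a : ℝ) + 1)) (e (N + 1)) (H.pos _) (H.hi _)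
        (by positivity))
      rw [hmtN]
      refine Real.rpow_le_rpow_of_exponent_le (by norm_num) ?_
      have h1 : (5 : ℝ) ≤ e (N + 1) := by
        have h2 := hlin (N + 1)
        exact_mod_cast (by omega : 5 ≤ e (N + 1))
      have h2 : (0 : ℝ) ≤ a := by positivity
      nlinarith
    · rw [hsg]
      obtain ⟨m, rfl⟩ : ∃ m, n = m + 1 := ⟨n - 1, by omega⟩
      have h1 := clu H (m0 := m0) (C0 := 5) d J N c1 hc1.le haa hvc m hn
      rw [Nat.add_sub_cancel]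
      have h2 : s (m + 2) ^ (-c1) ≤ s (m + 2) ^ (-c₁) := rp_mono _ (H.pos _) (hs1 _) _ _ hc1le
      refine le_trans ?_ (h1.trans h2)
      have h3 : (3 ^ d * J) * (6 * 2 ^ lt 5 a m0 e N m + 1) ^ d ≤
          (3 ^ d * J) ^ 2 * (6 * 2 ^ lt 5 a m0 e N m + 1) ^ d := by
        refine Nat.mul_le_mul_right _ ?_
        have h4 : 1 ≤ 3 ^ d * J := Nat.mul_pos (by positivity) (by omega)
        nlinarith
      exact_mod_cast h3
    · refine scl_scl H d J N _ hC h3a hv5 hvm (by omega) ?_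
      rw [← hm0]
      exact (Nat.lt_two_pow_self).le
    · unfold KN
      rw [if_pos hn, hsg]
    · unfold DN
      rw [if_pos rfl]
    · rw [hsg]
      exact hDl n hn
    · have h1 : n ≠ 0 := by omega
      unfold DN
      rw [if_neg h1]
    · exact_mod_cast hDs
    · have h1 : (0 : ℝ) ≤ ∑ i ∈ range (N + 2), (3 ^ d * (DN d J 5 a m0 (6 / 5) s e N i : ℝ)) :=
        Finset.sum_nonneg fun i _ => by positivity
      linarith
    · have h1 := hpi2 n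
      have h2 := hq1 n
      linarith
    · refine le_trans (H72.phi_mono ?_ ?_ _ _) hphi
      · intro c
        exact mul_nonneg (hpf0 _) (hnum0 _)
      · intro c
        exact hpi c.1
  · rw [hsg]
    exact qq_fin H (m0 := m0) d N hC hvm hmono J hJ A' hAA
      (fun n => 2 * pf w th kk β N n *
        ((kk (n + 1) : ℝ) - kk n + ((2 ^ lt 5 a m0 e N n : ℕ) : ℝ) ^ d))
      (fun n => mul_nonneg (mul_nonneg (by norm_num) (hpf0 _)) (hnum0 _)) hpi2 A hA5 n hn B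

/-- SCB: THE SCALES WITH A PRESCRIBED LAST STAGE `K`, for every `K` with `w th ^ K ≤ w ^ P`; uniform in
`th ∈ [1/2, b]` -/
theorem scb (d : ℕ) (b : ℝ≥0) (c₁ : ℝ) (hb1 : b < 1) (hc₁ : 0 < c₁) :
    ∃ (C₁ : ℝ) (α J P : ℕ), 4 * d + 4 ≤ α ∧ 1 ≤ P ∧ ∀ β : ℝ, 0 < β → ∀ A : ℝ,
    ∃ w₁ : ℝ, 0 < w₁ ∧ w₁ ≤ 1 ∧ ∀ (th w : ℝ≥0) (K : ℕ) (t : ℝ), 1 / 2 ≤ th → th ≤ b → 0 < w →
      (w : ℝ) ≤ w₁ → (w : ℝ) * (th : ℝ) ^ K ≤ (w : ℝ) ^ P → (w : ℝ) * (th : ℝ) ^ K ≤ t →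
      ∃ (N μ : ℕ) (kk l r Kn Dn : ℕ → ℕ), 2 ≤ N ∧ kk (N + 1) = K ∧
        Scal d th c₁ C₁ α J β w t N μ kk l r Kn Dn ∧
        ∀ n ≤ N, ∀ B, ANP.H72.QQ (Gt d μ J N l r).ch J
          (fun i => 2 * pf w th kk β N i.1 *
            ((kk (i.1 + 1) : ℝ) - kk i.1 + ((2 ^ l i.1 : ℕ) : ℝ) ^ d)) n B ≤
          sg w th kk (n + 1) ^ A := by
  obtain ⟨C₁, α, J, hα, h⟩ := core d b c₁ hb1 hc₁
  obtain ⟨P, hP1, hP⟩ := exists_kqK α (by omega)
  refine ⟨C₁, α, J, P, hα, hP1, fun β hβ A => ?_⟩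
  obtain ⟨v, hv, h⟩ := h β hβ A
  refine ⟨min ((1 / 2) ^ (4 * (α + 1))) (1 / 2 ^ v), lt_min (by positivity) (by positivity),
    (min_le_left _ _).trans (pow_le_one₀ (by norm_num) (by norm_num)), ?_⟩
  intro th w K t hth hthb hw hw1 hK ht
  have hwr : (0 : ℝ) < w := by exact_mod_cast hw
  have hwv : (w : ℝ) * 2 ^ v ≤ 1 := by
    have h1 := hw1.trans (min_le_right _ _)
    rwa [le_div_iff₀ (by positivity)] at h1
  have hwa := hw1.trans (min_le_left _ _)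
  have hθ2 : (1 / 2 : ℝ) ≤ th := by exact_mod_cast hth
  have hθ1 : (th : ℝ) < 1 := by exact_mod_cast lt_of_le_of_lt hthb hb1
  obtain ⟨N, kk, e, hN, hkK, HK⟩ := hP w th v K hv hθ2 hθ1 hwr hwa hwv hK
  have hw1' : (w : ℝ) ≤ 1 := hwa.trans (pow_le_one₀ (by norm_num) (by norm_num))
  obtain ⟨μ, l, r, Kn, Dn, hS, hQ⟩ := h th w N kk e t hth hthb hw hw1' HK (by rw [hkK]; exact ht)
  exact ⟨N, μ, kk, l, r, Kn, Dn, hN, hkK, hS, hQ⟩

end Pool.Agent.QDA.H22
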